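import Pool.Agent.Helper61.FN.GoalsC
import Pool.Agent.Helper78.FN.C4A

/-!
# Project FN (MP_06d934_gt), packet FN-C4B
-/

set_option autoImplicit false

namespace Pool.Agent.Helper93.FN.C4B

open Finset WithZero Pool.Agent.Helper61.FN Pool.Agent.Helper78.FN.C4A

section

variable {F k : Type} [Field F] [LinearOrder F] [IsStrictOrderedRing F] [Field k] [Algebra F k]
  {p q mu ep : F}

/-- The algebra of the case (C4B). -/
theorem algB (hp : ParC p q mu ep) (a b c th : k) (ha : a ≠ 0) (hb : b ≠ 0) (hc : c ≠ 0)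
    (ht : th ≠ 0)
    (h1 : algebraMap F k (2 * (2 * p + 2 * q + mu + 2 * ep)) =
      algebraMap F k q * (a + a⁻¹ + b + b⁻¹) + algebraMap F k (p + ep) * c)
    (h2 : algebraMap F k (2 * (p + q + ep)) + algebraMap F k mu * c ^ 2 / 2 =
      algebraMap F k q * (a / b + b / a))
    (h3 : algebraMap F k mu * (a - a⁻¹) + algebraMap F k (p + ep) * (a / b - b / a) / c =
      algebraMap F k (q + ep) * th / (a * b))
    (h4 : algebraMap F k mu * (b - b⁻¹) - algebraMap F k (p + ep) * (a / b - b / a) / c =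
      algebraMap F k (q + ep) * th / (a * b))
    (h5 : algebraMap F k p * (a - a⁻¹ + b - b⁻¹) = -(algebraMap F k (q + ep) * th))
    (h6 : algebraMap F k mu / 2 + algebraMap F k p / (a * b) = 0) :
    False := by
  have : CharZero k := charZero_of_injective_algebraMap (algebraMap F k).injective
  obtain ⟨p1, q1, mu0, ep2, ph0, ch0⟩ := hp
  have p0 : 0 < p := by linarith
  have q0 : 0 < q := by linarith
  have hmu : algebraMap F k mu ≠ 0 := am_ne mu0.ne'
  have hP : algebraMap F k p ≠ 0 := am_ne p0.ne'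
  obtain ⟨ph, hph⟩ : ∃ ph, ph = p + ep := ⟨_, rfl⟩
  obtain ⟨ch, hch⟩ : ∃ ch, ch = q + ep := ⟨_, rfl⟩
  rw [← hph] at h1 h3 h4 ph0
  rw [← hch] at h3 h4 h5 ch0
  have hphA : algebraMap F k ph ≠ 0 := am_ne ph0.ne'
  have hchA : algebraMap F k ch ≠ 0 := am_ne ch0.ne'
  have e1 : 2 * (2 * p + 2 * q + mu + 2 * ep) = 2 * (2 * ph + 2 * q + mu) := by rw [hph]; ring
  have e2 : 2 * (p + q + ep) = 2 * (ph + q) := by rw [hph]; ring
  rw [e1] at h1
  rw [e2] at h2
  have hab : a * b ≠ 0 := mul_ne_zero ha hb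
  -- the product
  have g6 : algebraMap F k mu * (a * b) = -2 * algebraMap F k p := by
    have h7 : algebraMap F k mu / 2 * (a * b) + algebraMap F k p = 0 := by
      have h8 : algebraMap F k p / (a * b) * (a * b) = algebraMap F k p :=
        div_mul_cancel₀ _ hab
      linear_combination (a * b) * h6 - h8
    linear_combination 2 * h7
  have hg : a + b ≠ 0 := by
    intro h7
    have hb' : b = -a := by linear_combination h7
    rw [hb', inv_neg] at h5
    have h8 : algebraMap F k ch * th = 0 := by linear_combination h5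
    exact mul_ne_zero hchA ht h8
  have ia : a⁻¹ * (2 * algebraMap F k p) = -(algebraMap F k mu * b) := by
    have : a⁻¹ * a = 1 := inv_mul_cancel₀ ha
    linear_combination a⁻¹ * g6 - (algebraMap F k mu * b) * this
  have ib : b⁻¹ * (2 * algebraMap F k p) = -(algebraMap F k mu * a) := by
    have : b⁻¹ * b = 1 := inv_mul_cancel₀ hb
    linear_combination b⁻¹ * g6 - (algebraMap F k mu * a) * this
  have g1 : 2 * algebraMap F k p * algebraMap F k (2 * (2 * ph + 2 * q + mu)) =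
      algebraMap F k q * (a + b) * (2 * algebraMap F k p - algebraMap F k mu) +
        2 * algebraMap F k p * (algebraMap F k ph * c) := by
    rw [h1]
    linear_combination (algebraMap F k q) * (ia + ib)
  have g2 : 2 * algebraMap F k p * (algebraMap F k (2 * (ph + q)) +
      algebraMap F k mu * c ^ 2 / 2) =
      algebraMap F k q * (-(algebraMap F k mu * (a + b) ^ 2) - 4 * algebraMap F k p) := by
    rw [h2, div_eq_mul_inv, div_eq_mul_inv]
    linear_combination (algebraMap F k q) * (b * ia + a * ib) +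
      (2 * algebraMap F k q) * g6
  have g34 : (a - b) * ((algebraMap F k mu - 2 * algebraMap F k p) * c +
      2 * algebraMap F k ph * (a + b)) = 0 := by
    have h7 : algebraMap F k mu * ((a - a⁻¹) - (b - b⁻¹)) +
        2 * algebraMap F k ph * (a / b - b / a) / c = 0 := by
      linear_combination h3 - h4
    have h8 : (a - b) * (algebraMap F k mu * (a * b + 1) * c +
        2 * algebraMap F k ph * (a + b)) = (a * b) * c *
        (algebraMap F k mu * ((a - a⁻¹) - (b - b⁻¹)) +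
          2 * algebraMap F k ph * (a / b - b / a) / c) := by
      field_simp
      ring
    rw [h7, mul_zero] at h8
    linear_combination h8 - ((a - b) * c) * g6
  rcases mul_eq_zero.1 g34 with h7 | h7
  · -- the case a = b
    have hb' : b = a := by linear_combination -h7
    subst hb'
    have f1 : algebraMap F k mu * c ^ 2 = -4 * algebraMap F k ph := by
      rw [div_self ha] at h2
      simp only [map_add, map_mul, map_ofNat] at h2
      linear_combination 2 * h2
    obtain ⟨K, hK⟩ : ∃ K, K = 2 * (2 * ph + 2 * q + mu) := ⟨_, rfl⟩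
    have K0 : 0 < K := by rw [hK]; positivity
    rw [← hK] at g1
    -- `u = U²`, `w = W²` up to the factor `2p` and with the opposite sign
    have key : algebraMap F k (((p * K) ^ 2) ^ 2 + 2 * (p * K) ^ 2 *
        (q ^ 2 * (2 * p - mu) ^ 2 * (2 * p) / mu + p ^ 2 * (4 * ph ^ 3 / mu)) +
        (q ^ 2 * (2 * p - mu) ^ 2 * (2 * p) / mu - p ^ 2 * (4 * ph ^ 3 / mu)) ^ 2) = 0 := by
      obtain ⟨x, hx⟩ : ∃ x, x = algebraMap F k q * (2 * algebraMap F k p - algebraMap F k mu) * b :=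
        ⟨_, rfl⟩
      obtain ⟨y, hy⟩ : ∃ y, y = algebraMap F k p * (algebraMap F k ph * c) := ⟨_, rfl⟩
      have e3 : algebraMap F k p * algebraMap F k K = x + y := by
        rw [hx, hy]
        linear_combination (1 / 2) * g1
      have e4 : x ^ 2 = -algebraMap F k (q ^ 2 * (2 * p - mu) ^ 2 * (2 * p) / mu) := by
        rw [map_div₀, ← neg_div, eq_div_iff hmu, hx]
        simp only [map_add, map_sub, map_mul, map_pow, map_ofNat]
        linear_combination ((algebraMap F k q) ^ 2 *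
          (2 * algebraMap F k p - algebraMap F k mu) ^ 2) * g6
      have e5 : y ^ 2 = -algebraMap F k (p ^ 2 * (4 * ph ^ 3 / mu)) := by
        rw [← mul_div_assoc, map_div₀, ← neg_div, eq_div_iff hmu, hy]
        simp only [map_mul, map_pow, map_ofNat]
        linear_combination ((algebraMap F k p) ^ 2 * (algebraMap F k ph) ^ 2) * f1
      rw [map_add, map_add, map_pow, map_pow, map_mul _ p K, map_mul, map_mul, map_pow,
        map_mul _ p K, map_add, map_pow, map_sub, map_ofNat, ← neg_eq_iff_eq_neg.2 e4,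
        ← neg_eq_iff_eq_neg.2 e5, e3]
      ring
    exact am_ne (by positivity) key
  · -- the case a ≠ b
    have hmp : 2 * p - mu ≠ 0 := by
      intro h8
      have h9 : mu = 2 * p := by linear_combination -h8
      rw [h9, map_mul, map_ofNat] at h7
      have h10 : algebraMap F k ph * (a + b) = 0 := by linear_combination (1 / 2) * h7
      exact mul_ne_zero hphA hg h10
    have hmpA : algebraMap F k (2 * p - mu) ≠ 0 := am_ne hmp
    obtain ⟨g, hg'⟩ : ∃ g, g = a + b := ⟨_, rfl⟩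
    rw [← hg'] at hg g1 g2 h7
    have hc' : c = algebraMap F k (2 * ph / (2 * p - mu)) * g := by
      rw [map_div₀, div_mul_eq_mul_div, eq_div_iff hmpA]
      simp only [map_sub, map_mul, map_ofNat]
      linear_combination -h7
    obtain ⟨K, hK⟩ : ∃ K, K = 2 * (2 * ph + 2 * q + mu) := ⟨_, rfl⟩
    have K0 : 0 < K := by rw [hK]; positivity
    rw [← hK] at g1
    have f1 : algebraMap F k (2 * p * K) =
        algebraMap F k (q * (2 * p - mu) + 2 * p * (ph * (2 * ph / (2 * p - mu)))) * g := by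
      rw [hc'] at g1
      simp only [map_add, map_sub, map_mul, map_ofNat] at g1 ⊢
      linear_combination g1
    have hD : q * (2 * p - mu) + 2 * p * (ph * (2 * ph / (2 * p - mu))) ≠ 0 := by
      intro h8
      rw [h8, map_zero, zero_mul] at f1
      exact am_ne (by positivity) f1
    obtain ⟨γ, hγ⟩ : ∃ γ : F, g = algebraMap F k γ := by
      refine ⟨2 * p * K / (q * (2 * p - mu) + 2 * p * (ph * (2 * ph / (2 * p - mu)))), ?_⟩
      rw [map_div₀, f1, mul_div_cancel_left₀ _ (am_ne hD)]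
    have f2 : algebraMap F k (2 * p * (2 * (ph + q) +
        mu * (2 * ph / (2 * p - mu) * γ) ^ 2 / 2) + q * (mu * γ ^ 2 + 4 * p)) = 0 := by
      rw [hc', hγ, ← map_mul] at g2
      simp only [map_add, map_sub, map_mul, map_div₀, map_pow, map_ofNat] at g2 ⊢
      linear_combination g2
    exact am_ne (by positivity) f2

end

theorem goalC4B : G_C4B := by
  intro F k _ _ _ _ _ p q mu ep lam v M ξ h v2 v4 v1 v5 v0 v3
  have : CharZero k := charZero_of_injective_algebraMap (algebraMap F k).injective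
  obtain ⟨L0, L1, L2, L3, L4, L5⟩ := ldC h
  have n0 := h.nrm.ne 0
  have n1 := h.nrm.ne 1
  have n2 := h.nrm.ne 2
  have n3 := h.nrm.ne 3
  have n4 := h.nrm.ne 4
  have n5 := h.nrm.ne 5
  have z0 : TT p q mu ep v ξ 0 = 0 := TT_zero (by rw [gr6]; simp [mC]; omega)
  have z1 : TT p q mu ep v ξ 1 = 0 := TT_zero (by rw [gr6]; simp [mC]; omega)
  have z3 : TT p q mu ep v ξ 3 = 0 := TT_zero (by rw [gr6]; simp [mC]; omega)
  have z5 : TT p q mu ep v ξ 5 = 0 := TT_zero (by rw [gr6]; simp [mC]; omega)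
  have z7 : TT p q mu ep v ξ 7 = 0 := TT_zero (by rw [gr6]; simp [mC]; omega)
  have z10 : TT p q mu ep v ξ 10 = 0 := TT_zero (by rw [gr6]; simp [mC]; omega)
  have z14 : TT p q mu ep v ξ 14 = 0 := TT_zero (by rw [gr6]; simp [mC]; omega)
  have z18 : TT p q mu ep v ξ 18 = 0 := TT_zero (by rw [gr6]; simp [mC]; omega)
  have z19 : TT p q mu ep v ξ 19 = 0 := TT_zero (by rw [gr6]; simp [mC]; omega)
  have t2 := TT_pos (p := p) (q := q) (mu := mu) (ep := ep) (ξ := ξ) (v := v) (j := 2)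
    (by rw [gr6]; simp [mC]; try omega)
  have t4 := TT_pos (p := p) (q := q) (mu := mu) (ep := ep) (ξ := ξ) (v := v) (j := 4)
    (by rw [gr6]; simp [mC]; try omega)
  have t6 := TT_pos (p := p) (q := q) (mu := mu) (ep := ep) (ξ := ξ) (v := v) (j := 6)
    (by rw [gr6]; simp [mC]; try omega)
  have t8 := TT_pos (p := p) (q := q) (mu := mu) (ep := ep) (ξ := ξ) (v := v) (j := 8)
    (by rw [gr6]; simp [mC]; try omega)
  have t9 := TT_pos (p := p) (q := q) (mu := mu) (ep := ep) (ξ := ξ) (v := v) (j := 9)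
    (by rw [gr6]; simp [mC]; try omega)
  have t11 := TT_pos (p := p) (q := q) (mu := mu) (ep := ep) (ξ := ξ) (v := v) (j := 11)
    (by rw [gr6]; simp [mC]; try omega)
  have t12 := TT_pos (p := p) (q := q) (mu := mu) (ep := ep) (ξ := ξ) (v := v) (j := 12)
    (by rw [gr6]; simp [mC]; try omega)
  have t13 := TT_pos (p := p) (q := q) (mu := mu) (ep := ep) (ξ := ξ) (v := v) (j := 13)
    (by rw [gr6]; simp [mC]; try omega)
  have t15 := TT_pos (p := p) (q := q) (mu := mu) (ep := ep) (ξ := ξ) (v := v) (j := 15)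
    (by rw [gr6]; simp [mC]; try omega)
  have t16 := TT_pos (p := p) (q := q) (mu := mu) (ep := ep) (ξ := ξ) (v := v) (j := 16)
    (by rw [gr6]; simp [mC]; try omega)
  have t17 := TT_pos (p := p) (q := q) (mu := mu) (ep := ep) (ξ := ξ) (v := v) (j := 17)
    (by rw [gr6]; simp [mC]; try omega)
  simp only [mon6] at t2 t4 t6 t8 t9 t11 t12 t13 t15 t16 t17
  simp [mC, cC] at t2 t4 t6 t8 t9 t11 t12 t13 t15 t16 t17
  simp only [z0, z1, z3, z5, z7, z10, z14, z18, z19] at L0 L1 L2 L3 L4 L5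
  obtain ⟨p1, q1, mu0, ep2, ph0, ch0⟩ := h.par
  have hP : algebraMap F k p ≠ 0 := am_ne (by positivity)
  have hQ : algebraMap F k q ≠ 0 := am_ne (by positivity)
  have hU : algebraMap F k mu ≠ 0 := am_ne mu0.ne'
  have hphA : algebraMap F k (p + ep) ≠ 0 := am_ne ph0.ne'
  have hchA : algebraMap F k (q + ep) ≠ 0 := am_ne ch0.ne'
  rw [map_add] at hphA hchA
  obtain ⟨P, hP'⟩ : ∃ P, P = algebraMap F k p := ⟨_, rfl⟩
  obtain ⟨Q, hQ'⟩ : ∃ Q, Q = algebraMap F k q := ⟨_, rfl⟩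
  obtain ⟨U, hU'⟩ : ∃ U, U = algebraMap F k mu := ⟨_, rfl⟩
  obtain ⟨E, hE'⟩ : ∃ E, E = algebraMap F k ep := ⟨_, rfl⟩
  have two : algebraMap F k 2 = 2 := map_ofNat _ 2
  rw [← hP'] at hP hphA t2 t4 t6 t8 t9 t11 t12 t15 t16 t17
  rw [← hQ'] at hQ hchA t2 t4 t6 t8 t9 t11 t13 t15 t16 t17
  rw [← hU'] at hU t4 t6 t8 t9 t11 t12 t13
  rw [← hE'] at hphA hchA t2 t4 t12 t13 t15 t16 t17
  rw [two] at t2 t4 t12 t13
  have u2 : TT p q mu ep v ξ 2 * ξ 2 = 2 * P * (P + E) * (P + Q + E) := by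
    rw [t2]; field_simp
  have u12 : TT p q mu ep v ξ 12 * ξ 2 = -(P * (P + E) * U) / 2 * (ξ 2 / ξ 4) ^ 2 := by
    rw [t12]; field_simp
  have u15 : TT p q mu ep v ξ 15 * ξ 2 = -(P * Q * (P + E)) * ((ξ 0 / ξ 5) / (ξ 1 / ξ 5)) := by
    rw [t15]; field_simp
  have u16 : TT p q mu ep v ξ 16 * ξ 2 = -(P * Q * (P + E)) * ((ξ 1 / ξ 5) / (ξ 0 / ξ 5)) := by
    rw [t16]; field_simp
  have w4 : TT p q mu ep v ξ 4 * ξ 4 = 2 * P * U * (2 * P + 2 * Q + U + 2 * E) := by
    rw [t4]; field_simp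
  have w6 : TT p q mu ep v ξ 6 * ξ 4 = -(P * Q * U) * (ξ 0 / ξ 5) := by
    rw [t6]; field_simp
  have w8 : TT p q mu ep v ξ 8 * ξ 4 = -(P * Q * U) * (ξ 0 / ξ 5)⁻¹ := by
    rw [t8]; field_simp
  have w9 : TT p q mu ep v ξ 9 * ξ 4 = -(P * Q * U) * (ξ 1 / ξ 5) := by
    rw [t9]; field_simp
  have w11 : TT p q mu ep v ξ 11 * ξ 4 = -(P * Q * U) * (ξ 1 / ξ 5)⁻¹ := by
    rw [t11]; field_simp
  have w12 : TT p q mu ep v ξ 12 * ξ 4 = -(P * (P + E) * U) / 2 * (ξ 2 / ξ 4) := by
    rw [t12]; field_simp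
  have w13 : TT p q mu ep v ξ 13 * ξ 4 = -(Q * (Q + E) * U) / 2 * (ξ 3 * ξ 4 / ξ 5 ^ 2) := by
    rw [t13]; field_simp
  have w15 : TT p q mu ep v ξ 15 * ξ 4 =
      -(P * Q * (P + E)) * ((ξ 0 / ξ 5) / (ξ 1 / ξ 5) / (ξ 2 / ξ 4)) := by
    rw [t15]; field_simp
  have w16 : TT p q mu ep v ξ 16 * ξ 4 =
      -(P * Q * (P + E)) * ((ξ 1 / ξ 5) / (ξ 0 / ξ 5) / (ξ 2 / ξ 4)) := by
    rw [t16]; field_simp
  have w17 : TT p q mu ep v ξ 17 * ξ 4 =
      -(P * Q * (Q + E)) * ((ξ 3 * ξ 4 / ξ 5 ^ 2) / ((ξ 0 / ξ 5) * (ξ 1 / ξ 5))) := by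
    rw [t17]; field_simp
  have x13 : TT p q mu ep v ξ 13 * (ξ 5 ^ 2 / ξ 3) = -(Q * (Q + E) * U) / 2 := by
    rw [t13]; field_simp
  have x17 : TT p q mu ep v ξ 17 * (ξ 5 ^ 2 / ξ 3) =
      -(P * Q * (Q + E)) / ((ξ 0 / ξ 5) * (ξ 1 / ξ 5)) := by
    rw [t17]; field_simp
  clear t2 t4 t6 t8 t9 t11 t12 t13 t15 t16 t17
  refine algB (k := k) h.par (ξ 0 / ξ 5) (ξ 1 / ξ 5) (ξ 2 / ξ 4) (ξ 3 * ξ 4 / ξ 5 ^ 2)
    (div_ne_zero n0 n5) (div_ne_zero n1 n5) (div_ne_zero n2 n4)
    (div_ne_zero (mul_ne_zero n3 n4) (pow_ne_zero 2 n5)) ?_ ?_ ?_ ?_ ?_ ?_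
  · simp only [map_add, map_mul, map_ofNat, ← hP', ← hQ', ← hU', ← hE']
    refine mul_left_cancel₀ (mul_ne_zero hP hU) ?_
    linear_combination (-ξ 4) * L4 - w4 - w6 - w8 - w9 - w11 - 2 * w12
  · simp only [map_add, map_mul, map_ofNat, ← hP', ← hQ', ← hU', ← hE']
    refine mul_left_cancel₀ (mul_ne_zero hP hphA) ?_
    linear_combination (-ξ 2) * L2 - u2 + u12 - u15 - u16
  · simp only [map_add, map_mul, map_ofNat, ← hP', ← hQ', ← hU', ← hE']
    refine mul_left_cancel₀ (mul_ne_zero hP hQ) ?_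
    linear_combination (-ξ 4) * L0 + w6 - w8 + w15 - w16 - w17
  · simp only [map_add, map_mul, map_ofNat, ← hP', ← hQ', ← hU', ← hE']
    refine mul_left_cancel₀ (mul_ne_zero hP hQ) ?_
    linear_combination (-ξ 4) * L1 + w9 - w11 - w15 + w16 - w17
  · simp only [map_add, map_mul, map_ofNat, ← hP', ← hQ', ← hU', ← hE']
    refine mul_left_cancel₀ (mul_ne_zero hQ hU) ?_
    linear_combination (ξ 4) * L5 + w6 - w8 + w9 - w11 + 2 * w13
  · simp only [map_add, map_mul, map_ofNat, ← hP', ← hQ', ← hU', ← hE']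
    refine (mul_eq_zero.1 ?_).resolve_left (mul_ne_zero hQ hchA)
    linear_combination (-(ξ 5 ^ 2 / ξ 3)) * L3 + x13 + x17

end Pool.Agent.Helper93.FN.C4B
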